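import Pool.Agent.H.MP_bf8eef_co.E

set_option autoImplicit false

namespace Pool.Agent.Results.MP_5484c7_co.Full

/-- The `F`-degree of `v` in `G`: the number of subgraphs of `G` isomorphic to `F` containing `v`. -/
noncomputable def fdeg {α V : Type} (F : SimpleGraph α) (G : SimpleGraph V) (v : V) : ℕ :=
  {H : G.Subgraph | Nonempty (H.coe ≃g F) ∧ v ∈ H.verts}.ncard

/-- There are `F`-irregular graphs of arbitrarily large order. -/
def Many {α : Type} (F : SimpleGraph α) : Prop :=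
  ∀ z : ℕ, ∃ (m : ℕ) (G : SimpleGraph (Fin m)), z ≤ m ∧ Function.Injective (fdeg F G)

lemma gen (α : Type) [Fintype α] (F : SimpleGraph α) (h3 : 3 ≤ Fintype.card α)
    (hF : F.Connected) : Many F := by
  intro z
  let e : (F.comap (Fintype.equivFin α).symm) ≃g F := SimpleGraph.Iso.comap _ F
  obtain ⟨m, G, h1, h2⟩ := Pool.Agent.H.MP_bf8eef_co.strong
    (F.comap (Fintype.equivFin α).symm) h3 (e.connected_iff.2 hF) z
  refine ⟨m, G, h1, ?_⟩
  have : fdeg F G = Pool.Agent.H.MP_bf8eef_co.fdeg (F.comap (Fintype.equivFin α).symm) G := by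
    funext v
    unfold fdeg Pool.Agent.H.MP_bf8eef_co.fdeg
    congr 1
    ext H
    exact and_congr_left' ⟨fun ⟨x⟩ => ⟨x.trans e.symm⟩, fun ⟨x⟩ => ⟨x.trans e⟩⟩
  rw [this]; exact h2

theorem result :
    (∀ n : ℕ, 2 ≤ n → Many (completeBipartiteGraph (Fin 1) (Fin n))) ∧
    (∀ n : ℕ, 3 ≤ n → Many (⊤ : SimpleGraph (Fin n))) ∧
    (∀ (n : ℕ) (F : SimpleGraph (Fin n)), 3 ≤ n → F.Connected → Many F) := by
  refine ⟨fun n hn => gen _ _ (by simp; omega) ?_, fun n hn => gen _ _ (by simpa) ?_,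
    fun n F hn hF => gen _ _ (by simpa) hF⟩
  · have key : ∀ x, (completeBipartiteGraph (Fin 1) (Fin n)).Reachable (Sum.inl 0) x := by
      rintro (x | x)
      · rw [Subsingleton.elim x 0]
      · exact SimpleGraph.Adj.reachable (by simp)
    exact ⟨fun x y => (key x).symm.trans (key y)⟩
  · have : Nonempty (Fin n) := ⟨⟨0, by omega⟩⟩
    exact SimpleGraph.connected_top

end Pool.Agent.Results.MP_5484c7_co.Full
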